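import Pool.Agent.Helper65.KPZ.St

set_option autoImplicit false

namespace Pool.Agent.Helper67.KPZ

open Pool.Agent.Helper65.KPZ Pool.Agent.Helper52.KP Pool.Agent.Helper67.NO

universe u

theorem hZUN : StZUN.{u} := by
  intro g _ _ _ x₀ C hC e hcmp
  have h1 : C.R 0 = Submodule.span ℂ {1} := by
    apply le_antisymm
    · intro f hf
      obtain ⟨c, rfl⟩ := hC.cst f hf
      rw [Submodule.mem_span_singleton]
      exact ⟨c, by rw [MvPolynomial.smul_eq_C_mul, mul_one]⟩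
    · rw [Submodule.span_singleton_le_iff_mem]
      exact hC.one
  have hone : (1 : OO x₀ → ℂ) ∈ Reg x₀ 0 := by
    refine ⟨fun x => ⟨1, 1, by simp [pev], fun y => by simp [pev]⟩, fun x y c _ _ => by simp⟩
  have hall : ∀ ψ ∈ Reg x₀ 0, ∃ c : ℂ, ψ = c • (e 0 ⟨1, hC.one⟩ : OO x₀ → ℂ) := by
    intro ψ hψ
    have hp : (((e 0).symm ⟨ψ, hψ⟩ : C.R 0) : MvPolynomial (Fin C.m) ℂ) ∈
        Submodule.span ℂ {1} := h1.le ((e 0).symm ⟨ψ, hψ⟩).2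
    obtain ⟨c, hc⟩ := Submodule.mem_span_singleton.mp hp
    refine ⟨c, ?_⟩
    have h2 : (e 0).symm ⟨ψ, hψ⟩ = c • (⟨1, hC.one⟩ : C.R 0) := Subtype.ext hc.symm
    have h3 := congrArg (e 0) h2
    rw [LinearEquiv.apply_symm_apply, map_smul] at h3
    exact congrArg Subtype.val h3
  have hsq : (e 0 ⟨1, hC.one⟩ : OO x₀ → ℂ) =
      (e 0 ⟨1, hC.one⟩ : OO x₀ → ℂ) * (e 0 ⟨1, hC.one⟩ : OO x₀ → ℂ) :=
    hcmp 0 0 ⟨1, hC.one⟩ ⟨1, hC.one⟩ ⟨1, hC.one⟩ (by simp)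
  have hφ : (e 0 ⟨1, hC.one⟩ : OO x₀ → ℂ) = 1 := by
    obtain ⟨c, hc⟩ := hall 1 hone
    funext y
    have h2 : (1 : ℂ) = c * (e 0 ⟨1, hC.one⟩ : OO x₀ → ℂ) y := congrFun hc y
    have h3 : (e 0 ⟨1, hC.one⟩ : OO x₀ → ℂ) y =
        (e 0 ⟨1, hC.one⟩ : OO x₀ → ℂ) y * (e 0 ⟨1, hC.one⟩ : OO x₀ → ℂ) y := congrFun hsq y
    have h4 : (e 0 ⟨1, hC.one⟩ : OO x₀ → ℂ) y ≠ 0 := by
      intro h0
      rw [h0, mul_zero] at h2
      exact one_ne_zero h2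
    have h5 : (e 0 ⟨1, hC.one⟩ : OO x₀ → ℂ) y * (e 0 ⟨1, hC.one⟩ : OO x₀ → ℂ) y =
        (e 0 ⟨1, hC.one⟩ : OO x₀ → ℂ) y * 1 := by rw [mul_one]; exact h3.symm
    exact mul_left_cancel₀ h4 h5
  refine ⟨h1, ?_, hφ⟩
  apply le_antisymm
  · intro ψ hψ
    obtain ⟨c, hc⟩ := hall ψ hψ
    rw [Submodule.mem_span_singleton]
    exact ⟨c, by rw [hc, hφ]⟩
  · rw [Submodule.span_singleton_le_iff_mem]
    exact hone

end Pool.Agent.Helper67.KPZ
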